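import Mathlib
import Pool.Agent.H16.Quat

set_option autoImplicit false

namespace Pool.Agent.Results.MP_b29aa3_nt.Counter

open Polynomial

theorem result : ∃ p q r s : ℕ, p.Prime ∧ q.Prime ∧ r.Prime ∧ s.Prime ∧ p < q ∧ q < r ∧ r < s ∧
    ((s : ℤ) ≡ 1 [ZMOD (p * q * r : ℕ)] ∨ (s : ℤ) ≡ -1 [ZMOD (p * q * r : ℕ)]) ∧
    ((r : ℤ) ≡ 1 [ZMOD (p * q : ℕ)] ∨ (r : ℤ) ≡ -1 [ZMOD (p * q : ℕ)]) ∧
    ¬ (q : ℤ) ≡ -1 [ZMOD (p : ℕ)] ∧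
    ∃ k : ℕ, 2 < |(cyclotomic (p * q * r * s) ℤ).coeff k| :=
  ⟨11, 13, 571, 163307, by norm_num, by norm_num, by norm_num, by norm_num, by norm_num, by norm_num,
    by norm_num, Or.inl (by decide), Or.inr (by decide), by decide, Pool.Agent.H16.Quat.main⟩

end Pool.Agent.Results.MP_b29aa3_nt.Counter
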